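import Mathlib

set_option autoImplicit false

open Nat Finset

namespace Pool.Agent.Results.MP_f5847d_nt.ExpLinear

theorem pow_dvd (p m : ℕ) (hp : 0 < p) : p ^ m ∣ (p * m)! := by
  induction m with
  | zero => simp
  | succ m ih =>
    have h1 : p * (m + 1) = (p * m + (p - 1)) + 1 := by
      have : p * (m + 1) = p * m + p := by ring
      omega
    have h2 : (p * m)! ∣ (p * m + (p - 1))! := Nat.factorial_dvd_factorial (by omega)
    rw [h1, Nat.factorial_succ, ← h1, pow_succ, mul_comm (p ^ m) p]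
    exact mul_dvd_mul (dvd_mul_right p _) (ih.trans h2)

theorem core (S : Finset ℕ) (hS : ∀ p ∈ S, p.Prime) (P : ℕ) (hP : 0 < P) (hPS : ∀ p ∈ S, p ≤ P)
    (n : ℕ) (hn : 1 ≤ n) (k : ℕ → ℕ) (hne : Nat.factorial n ≠ ∏ p ∈ S, p ^ k p) :
    (2 : ℤ) ^ (n / P) ≤ 4 * |((Nat.factorial n : ℕ) : ℤ) - ((∏ p ∈ S, p ^ k p : ℕ) : ℤ)| := by
  set s := ∏ p ∈ S, p ^ k p with hs
  have hd : ((Nat.factorial n : ℕ) : ℤ) - (s : ℤ) ≠ 0 := by
    intro h
    apply hne
    have : ((Nat.factorial n : ℕ) : ℤ) = (s : ℤ) := by linarith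
    exact_mod_cast this
  by_cases hdvd : s ∣ Nat.factorial n
  · obtain ⟨t, ht⟩ := hdvd
    have ht2 : 2 ≤ t := by
      rcases t with _ | _ | t
      · rw [mul_zero] at ht; exact absurd ht (Nat.factorial_ne_zero n)
      · exact absurd (by simpa using ht) hne
      · omega
    have h1 : (2 : ℤ) * s ≤ (Nat.factorial n : ℕ) := by
      have : 2 * s ≤ Nat.factorial n := by rw [ht]; nlinarith
      exact_mod_cast this
    have h2 : (2 : ℤ) ^ (n / P) ≤ 2 * (Nat.factorial n : ℕ) := by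
      have h3 : 2 ^ (n - 1) ≤ Nat.factorial n := by
        obtain ⟨j, rfl⟩ : ∃ j, n = j + 1 := ⟨n - 1, by omega⟩
        rw [Nat.add_sub_cancel]
        clear * -
        induction j with
        | zero => simp
        | succ j ih =>
          rw [Nat.factorial_succ, _root_.pow_succ']
          exact Nat.mul_le_mul (by omega) ih
      have h4 : 2 ^ (n / P) ≤ 2 ^ n := Nat.pow_le_pow_right (by norm_num) (Nat.div_le_self _ _)
      have h5 : 2 ^ n = 2 * 2 ^ (n - 1) := by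
        rw [← _root_.pow_succ']; congr 1; omega
      have : 2 ^ (n / P) ≤ 2 * Nat.factorial n := by omega
      exact_mod_cast this
    have h6 : (0 : ℤ) ≤ s := by positivity
    rw [abs_of_nonneg (by linarith)]
    linarith
  · have : ∃ p ∈ S, ¬ p ^ k p ∣ Nat.factorial n := by
      by_contra hcon
      push Not at hcon
      apply hdvd
      apply Finset.prod_dvd_of_isRelPrime _ hcon
      intro p hp q hq hpq
      rw [Function.onFun, ← Nat.coprime_iff_isRelPrime]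
      exact Nat.Coprime.pow _ _ ((Nat.coprime_primes (hS p hp) (hS q hq)).mpr hpq)
    obtain ⟨p, hp, hpk⟩ := this
    have hpp := hS p hp
    have h1 : p ^ (n / p) ∣ Nat.factorial n :=
      (pow_dvd p (n / p) hpp.pos).trans (Nat.factorial_dvd_factorial (Nat.mul_div_le n p))
    have h2 : n / p ≤ k p := by
      by_contra h
      exact hpk ((pow_dvd_pow p (by omega)).trans h1)
    have h3 : p ^ (n / p) ∣ s := (pow_dvd_pow p h2).trans (Finset.dvd_prod_of_mem _ hp)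
    have h4 : ((p ^ (n / p) : ℕ) : ℤ) ∣ ((Nat.factorial n : ℕ) : ℤ) - (s : ℤ) :=
      dvd_sub (Int.natCast_dvd_natCast.mpr h1) (Int.natCast_dvd_natCast.mpr h3)
    have h5 : ((p ^ (n / p) : ℕ) : ℤ) ≤ |((Nat.factorial n : ℕ) : ℤ) - (s : ℤ)| :=
      Int.le_of_dvd (abs_pos.mpr hd) ((dvd_abs _ _).mpr h4)
    have h6 : 2 ^ (n / P) ≤ p ^ (n / p) := by
      calc 2 ^ (n / P) ≤ p ^ (n / P) := Nat.pow_le_pow_left hpp.two_le _
        _ ≤ p ^ (n / p) := Nat.pow_le_pow_right hpp.pos (Nat.div_le_div_left (hPS p hp) hpp.pos)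
    have h7 : (2 : ℤ) ^ (n / P) ≤ ((p ^ (n / p) : ℕ) : ℤ) := by exact_mod_cast h6
    have h8 := abs_nonneg (((Nat.factorial n : ℕ) : ℤ) - (s : ℤ))
    linarith

/-- `|n! - ∏ p^{k_p}| > exp(c n)`. -/
theorem result : ∀ S : Finset ℕ, (∀ p ∈ S, p.Prime) → ∃ c : ℝ, 0 < c ∧ ∃ n₀ : ℕ, ∀ n ≥ n₀,
    ∀ k : ℕ → ℕ, Nat.factorial n ≠ ∏ p ∈ S, p ^ k p →
      Real.exp (c * n) < |((Nat.factorial n : ℕ) : ℝ) - ((∏ p ∈ S, p ^ k p : ℕ) : ℝ)| := by
  intro S hS
  set P := S.sup id + 1 with hPdef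
  have hPS : ∀ p ∈ S, p ≤ P := fun p hp => by
    have : id p ≤ S.sup id := Finset.le_sup hp
    simp only [id] at this
    omega
  have hP : 0 < P := by omega
  have hPr : (0 : ℝ) < P := by exact_mod_cast hP
  have hl2 : 0 < Real.log 2 := Real.log_pos (by norm_num)
  refine ⟨Real.log 2 / (2 * P), by positivity, 8 * P, ?_⟩
  intro n hn k hne
  have h1 := core S hS P hP hPS n (by omega) k hne
  have h2 : (2 : ℝ) ^ (n / P) ≤ 4 * |((Nat.factorial n : ℕ) : ℝ) - ((∏ p ∈ S, p ^ k p : ℕ) : ℝ)| := by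
    exact_mod_cast h1
  have h3 : Real.exp (Real.log 2 / (2 * P) * n) = (2 : ℝ) ^ ((n : ℝ) / (2 * P)) := by
    rw [Real.rpow_def_of_pos (by norm_num)]
    congr 1; field_simp
  have h4 : (n : ℝ) / P < (n / P : ℕ) + 1 := by
    have := Nat.lt_div_mul_add hP (a := n)
    rw [div_lt_iff₀ hPr]
    have h5 : n < (n / P + 1) * P := by nlinarith [this]
    exact_mod_cast h5
  have h6 : (8 : ℝ) ≤ (n : ℝ) / P := by
    rw [le_div_iff₀ hPr]
    exact_mod_cast hn
  have h7 : (2 : ℝ) ^ ((n : ℝ) / (2 * P)) * 4 < (2 : ℝ) ^ (n / P) := by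
    have h8 : (2 : ℝ) ^ ((n : ℝ) / (2 * P)) * 4 = (2 : ℝ) ^ ((n : ℝ) / (2 * P) + 2) := by
      rw [Real.rpow_add (by norm_num)]; norm_num
    rw [h8, ← Real.rpow_natCast]
    apply Real.rpow_lt_rpow_of_exponent_lt (by norm_num)
    have h9 : (n : ℝ) / (2 * P) = (n : ℝ) / P / 2 := by field_simp
    rw [h9]
    linarith
  rw [h3]
  linarith

end Pool.Agent.Results.MP_f5847d_nt.ExpLinear
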